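import Pool.Agent.W_ca8607_h98.Main

/-!
# MP_ca8607_gt: complete embedded minimal surfaces in domains with removable holes
-/

set_option autoImplicit false

namespace Pool.Agent.Results.MP_ca8607_gt.RemovableHoles

open Ca98 Set

/-- Let `D` be an open subset of `ℝ³`, let `𝒦` be a family of removable holes of `D` (compact sets which are
countable unions of strictly mean-convex bodies and of compact subsets of curves, see `Ca98.Hole`), and let `S` be a
complete minimal surface properly embedded in `D`. Then `S` does not accumulate at any of the holes, and if `D`
together with the holes is simply connected, then `S` is orientable. -/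
theorem result (D : Set E3) (𝒦 : Set (Set E3)) (S : Set E3) (hD : IsOpen D)
    (h𝒦 : ∀ K ∈ 𝒦, Hole D K) (hS : MinimalSurface S) (hcl : ClosedIn S D)
    (hc : IntrinsicallyComplete S) :
    (∀ K ∈ 𝒦, Disjoint (closure S) K) ∧
      (SimplyConnectedSpace (D ∪ ⋃₀ 𝒦 : Set E3) → Orientable S) :=
  main hD h𝒦 hS hcl hc

end Pool.Agent.Results.MP_ca8607_gt.RemovableHoles
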